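import Pool.Agent.T6.H4.GT.Loc

/-! Hecke characters of `ℚ(i)` of every infinity type exist. -/

set_option autoImplicit false

namespace Pool.Agent.T6.H4.GT

open Complex
open Pool.Agent.W354.HW (chiE chiE_HC qE)

/-- the powers of the Hecke character of the elliptic curve `y² = x³ - x` -/
noncomputable def exChar (k : ℕ) (hk : 1 ≤ k) : HeckeChar k where
  modulus := qE
  fin := chiE ^ k
  modulus_ne := chiE_HC.q0
  per a b h := by rw [MonoidHom.pow_apply, MonoidHom.pow_apply, chiE_HC.per a b h]
  supp a h := by
    have h1 : chiE a = 0 := by
      by_contra h2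
      exact h ((chiE_HC.supp a).1 h2)
    rw [MonoidHom.pow_apply, h1, zero_pow (by omega)]
  nrm a h := by rw [MonoidHom.pow_apply, norm_pow, chiE_HC.nrm a h, one_pow]
  unit := by rw [MonoidHom.pow_apply, chiE_HC.unit, pow_one]

/-- there are Hecke characters of every infinity type -/
theorem exists_char (k : ℕ) : Nonempty (HeckeChar k) := by
  rcases Nat.eq_zero_or_pos k with rfl | hk
  · exact ⟨{ modulus := 1
             fin := 1
             modulus_ne := one_ne_zero
             per := fun _ _ _ => rfl
             supp := fun a h => absurd isCoprime_one_right h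
             nrm := fun a _ => by simp
             unit := by simp }⟩
  · exact ⟨exChar k hk⟩

end Pool.Agent.T6.H4.GT
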