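import Pool.Agent.T6.H4.GT.Pair
import Pool.Agent.Y149.PK.Core

/-! Bessel's inequality. -/

set_option autoImplicit false

namespace Pool.Agent.T6.H4.GT

open Finset Filter Topology Complex ComplexConjugate
open Pool.Agent.Y149.CM
open Pool.Agent.Y149.PK (E_add' E_smul E_mono E_fsum lam_pos)
open Pool.Agent.H341R2 (E lam lam_tendsto)

section
variable {ι : Type} [Fintype ι]

/-- the pointwise expansion of the square -/
theorem sq_expand (y : ι → ℝ) (Q : ℂ) (a : ι → ℂ) :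
    ‖Q - ∑ j, (y j : ℂ) * conj (a j)‖ ^ 2 =
      (‖Q‖ ^ 2 + ∑ j, (-2 * y j) * (Q * a j).re) + ∑ i, ∑ j, (y i * y j) * (a i * conj (a j)).re := by
  have h0 : ‖Q - ∑ j, (y j : ℂ) * conj (a j)‖ ^ 2 =
      ‖Q‖ ^ 2 - 2 * (Q * conj (∑ j, (y j : ℂ) * conj (a j))).re +
        ((∑ i, (y i : ℂ) * conj (a i)) * conj (∑ j, (y j : ℂ) * conj (a j))).re := by
    rw [← Complex.normSq_eq_norm_sq, Complex.normSq_sub, Complex.normSq_eq_norm_sq,
      Complex.mul_conj (∑ j, (y j : ℂ) * conj (a j)), Complex.ofReal_re]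
    ring
  rw [h0]
  have h1 : conj (∑ j, (y j : ℂ) * conj (a j)) = ∑ j, (y j : ℂ) * a j := by
    rw [map_sum]
    exact Finset.sum_congr rfl fun j _ => by rw [map_mul, Complex.conj_ofReal, Complex.conj_conj]
  rw [h1, Finset.mul_sum, Complex.re_sum, Finset.sum_mul_sum, Complex.re_sum]
  have h2 : ∑ j, (Q * ((y j : ℂ) * a j)).re = ∑ j, y j * (Q * a j).re :=
    Finset.sum_congr rfl fun j _ => by
      rw [show Q * ((y j : ℂ) * a j) = (y j : ℂ) * (Q * a j) by ring, Complex.re_ofReal_mul]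
  have h3 : ∑ i, (∑ j, (y i : ℂ) * conj (a i) * ((y j : ℂ) * a j)).re =
      ∑ i, ∑ j, (y i * y j) * (a i * conj (a j)).re := by
    refine Finset.sum_congr rfl fun i _ => ?_
    rw [Complex.re_sum]
    refine Finset.sum_congr rfl fun j _ => ?_
    rw [show (y i : ℂ) * conj (a i) * ((y j : ℂ) * a j) =
      ((y i * y j : ℝ) : ℂ) * (conj (a i) * a j) by push_cast; ring, Complex.re_ofReal_mul]
    congr 1
    rw [← Complex.conj_re, map_mul, Complex.conj_conj]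
  rw [h2, h3]
  have h4 : ∑ j, (-2 * y j) * (Q * a j).re = -2 * ∑ j, y j * (Q * a j).re := by
    rw [Finset.mul_sum]
    exact Finset.sum_congr rfl fun j _ => by ring
  rw [h4]
  ring

variable {Aj : ι → Nat.Primes → ℂ} {Q : Nat.Primes → ℂ} {N : ℝ}

theorem QA_bd (hA : ∀ j p, ‖Aj j p‖ ≤ 2) (hQ : ∀ p, ‖Q p‖ ≤ N) (j : ι) (p : Nat.Primes) :
    |(Q p * Aj j p).re| ≤ N * 2 := by
  refine (Complex.abs_re_le_norm _).trans ?_
  rw [norm_mul]
  exact mul_le_mul (hQ p) (hA j p) (norm_nonneg _) ((norm_nonneg _).trans (hQ p))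

theorem AA_bd' (hA : ∀ j p, ‖Aj j p‖ ≤ 2) (i j : ι) (p : Nat.Primes) :
    |(Aj i p * conj (Aj j p)).re| ≤ 2 * 2 := by
  refine (Complex.abs_re_le_norm _).trans ?_
  rw [norm_mul, Complex.norm_conj]
  exact mul_le_mul (hA i p) (hA j p) (norm_nonneg _) (by norm_num)

/-- the mean of the square -/
theorem E_expand {ε : ℝ} (hε : 0 < ε) (hA : ∀ j p, ‖Aj j p‖ ≤ 2) (hQ : ∀ p, ‖Q p‖ ≤ N)
    (y : ι → ℝ) : 0 ≤ E ε (fun p => ‖Q p‖ ^ 2) + ∑ j, (-2 * y j) * E ε (fun p => (Q p * Aj j p).re) +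
      ∑ i, ∑ j, (y i * y j) * E ε (fun p => (Aj i p * conj (Aj j p)).re) := by
  have hb1 : ∀ p, |‖Q p‖ ^ 2| ≤ N ^ 2 := fun p => by
    rw [abs_of_nonneg (sq_nonneg _)]
    exact pow_le_pow_left₀ (norm_nonneg _) (hQ p) 2
  have hb2 : ∀ j ∈ (Finset.univ : Finset ι), ∀ p, |(-2 * y j) * (Q p * Aj j p).re| ≤
      |(-2 * y j)| * (N * 2) := fun j _ p => by
    rw [abs_mul]
    exact mul_le_mul_of_nonneg_left (QA_bd hA hQ j p) (abs_nonneg _)
  have hb3 : ∀ i, ∀ j ∈ (Finset.univ : Finset ι), ∀ p, |(y i * y j) * (Aj i p * conj (Aj j p)).re| ≤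
      |y i * y j| * (2 * 2) := fun i j _ p => by
    rw [abs_mul]
    exact mul_le_mul_of_nonneg_left (AA_bd' hA i j p) (abs_nonneg _)
  have hb2' : ∀ p, |∑ j, (-2 * y j) * (Q p * Aj j p).re| ≤ ∑ j, |(-2 * y j)| * (N * 2) := fun p =>
    (Finset.abs_sum_le_sum_abs _ _).trans (Finset.sum_le_sum fun j hj => hb2 j hj p)
  have hb3' : ∀ i ∈ (Finset.univ : Finset ι), ∀ p, |∑ j, (y i * y j) * (Aj i p * conj (Aj j p)).re| ≤
      ∑ j, |y i * y j| * (2 * 2) := fun i _ p =>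
    (Finset.abs_sum_le_sum_abs _ _).trans (Finset.sum_le_sum fun j hj => hb3 i j hj p)
  have hb3'' : ∀ p, |∑ i, ∑ j, (y i * y j) * (Aj i p * conj (Aj j p)).re| ≤
      ∑ i, ∑ j, |y i * y j| * (2 * 2) := fun p =>
    (Finset.abs_sum_le_sum_abs _ _).trans (Finset.sum_le_sum fun i hi => hb3' i hi p)
  have e1 : E ε (fun p => ‖Q p - ∑ j, (y j : ℂ) * conj (Aj j p)‖ ^ 2) =
      E ε (fun p => ‖Q p‖ ^ 2) + ∑ j, (-2 * y j) * E ε (fun p => (Q p * Aj j p).re) +
      ∑ i, ∑ j, (y i * y j) * E ε (fun p => (Aj i p * conj (Aj j p)).re) := by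
    have e2 : (fun p => ‖Q p - ∑ j, (y j : ℂ) * conj (Aj j p)‖ ^ 2) =
        fun p => (‖Q p‖ ^ 2 + ∑ j, (-2 * y j) * (Q p * Aj j p).re) +
          ∑ i, ∑ j, (y i * y j) * (Aj i p * conj (Aj j p)).re := by
      funext p
      exact sq_expand y (Q p) fun j => Aj j p
    rw [e2, E_add' hε (fun p => (abs_add_le _ _).trans (add_le_add (hb1 p) (hb2' p))) hb3'',
      E_add' hε hb1 hb2', E_fsum hε _ _ _ hb2, E_fsum hε _ _ _ hb3']
    congr 1
    · congr 1
      exact Finset.sum_congr rfl fun j _ => E_smul _ _ _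
    · refine Finset.sum_congr rfl fun i _ => ?_
      rw [E_fsum hε _ _ _ (hb3 i)]
      exact Finset.sum_congr rfl fun j _ => E_smul _ _ _
  rw [← e1]
  exact tsum_nonneg fun p => mul_nonneg (sq_nonneg _) (by positivity)

/-- **Bessel's inequality.** -/
theorem bessel [DecidableEq ι] (hA : ∀ j p, ‖Aj j p‖ ≤ 2)
    (hG : ∀ i j, Lim0 (fun p => (Aj i p * conj (Aj j p)).re) (if i = j then 1 else 0))
    (hN : 0 ≤ N) (hQ : ∀ p, ‖Q p‖ ≤ N * sp p) {η : ℝ} (hη : 0 < η) :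
    ∀ᶠ ε : ℝ in 𝓝[>] 0, ∑ j, (E ε (fun p => (Q p * Aj j p).re) / lam ε) ^ 2 ≤ N ^ 2 / 2 + η := by
  have hQ' : ∀ p, ‖Q p‖ ≤ N := fun p => (hQ p).trans (by
    have := (le_abs_self _).trans (sp_le' p)
    nlinarith)
  have hδ : Tendsto (fun ε => ∑ i, ∑ j, |E ε (fun p => (Aj i p * conj (Aj j p)).re) / lam ε -
      if i = j then 1 else 0|) (𝓝[>] 0) (𝓝 0) := by
    have h1 : Tendsto (fun ε => ∑ i, ∑ j, |E ε (fun p => (Aj i p * conj (Aj j p)).re) / lam ε -
        if i = j then 1 else 0|) (𝓝[>] 0) (𝓝 (∑ _i : ι, ∑ _j : ι, (0 : ℝ))) := by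
      refine tendsto_finsetSum _ fun i _ => tendsto_finsetSum _ fun j _ => ?_
      have h := (hG i j).sub_const (if i = j then (1 : ℝ) else 0)
      rw [sub_self] at h
      simpa using h.abs
    simpa using h1
  have hlim : Tendsto (fun ε => N ^ 2 * (E ε (fun p => sp p) / lam ε) + (N * 2) ^ 2 *
      ∑ i, ∑ j, |E ε (fun p => (Aj i p * conj (Aj j p)).re) / lam ε -
      if i = j then 1 else 0|) (𝓝[>] 0) (𝓝 (N ^ 2 * (1 / 2) + (N * 2) ^ 2 * 0)) :=
    (lim_sp.const_mul _).add (hδ.const_mul _)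
  filter_upwards [hlim.eventually_lt_const (show _ < N ^ 2 / 2 + η by linarith), lam_pos,
    self_mem_nhdsWithin] with ε h1 h2 h3
  have hε : (0 : ℝ) < ε := h3
  refine le_trans ?_ h1.le
  set y : ι → ℝ := fun j => E ε (fun p => (Q p * Aj j p).re) / lam ε with hy
  have hyE : ∀ j, E ε (fun p => (Q p * Aj j p).re) = y j * lam ε := fun j => by
    rw [hy]
    field_simp
  have hyb : ∀ j, |y j| ≤ N * 2 := fun j => by
    rw [hy]
    simp only
    rw [abs_div, abs_of_pos h2, div_le_iff₀ h2]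
    exact Pool.Agent.Y149.PK.abs_E_le hε (QA_bd hA hQ' j)
  set g : ι → ι → ℝ := fun i j => E ε (fun p => (Aj i p * conj (Aj j p)).re) / lam ε with hg
  have hgE : ∀ i j, E ε (fun p => (Aj i p * conj (Aj j p)).re) = g i j * lam ε := fun i j => by
    rw [hg]
    field_simp
  have h4 := E_expand hε hA hQ' y
  have h5 : E ε (fun p => ‖Q p‖ ^ 2) ≤ N ^ 2 * E ε (fun p => sp p) := by
    rw [← E_smul]
    refine E_mono hε (B := N ^ 2) (B' := N ^ 2) (fun p => ?_) (fun p => ?_) (fun p => ?_)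
    · rw [abs_of_nonneg (sq_nonneg _)]
      exact pow_le_pow_left₀ (norm_nonneg _) (hQ' p) 2
    · rw [abs_mul, abs_of_nonneg (sq_nonneg _)]
      exact mul_le_of_le_one_right (sq_nonneg _) (sp_le' p)
    · calc ‖Q p‖ ^ 2 ≤ (N * sp p) ^ 2 := pow_le_pow_left₀ (norm_nonneg _) (hQ p) 2
        _ = N ^ 2 * sp p := by rw [mul_pow, sq (sp p), sp_mul_self]
  have h6 : ∑ j, (-2 * y j) * E ε (fun p => (Q p * Aj j p).re) =
      -2 * (∑ j, y j ^ 2) * lam ε := by
    rw [Finset.mul_sum, Finset.sum_mul]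
    exact Finset.sum_congr rfl fun j _ => by rw [hyE]; ring
  have h7 : ∑ i, ∑ j, (y i * y j) * E ε (fun p => (Aj i p * conj (Aj j p)).re) =
      (∑ j, y j ^ 2 + ∑ i, ∑ j, (y i * y j) * (g i j - if i = j then 1 else 0)) * lam ε := by
    have e1 : ∀ i, ∑ j, (y i * y j) * E ε (fun p => (Aj i p * conj (Aj j p)).re) =
        (y i ^ 2 + ∑ j, (y i * y j) * (g i j - if i = j then 1 else 0)) * lam ε := by
      intro i
      have e2 : y i ^ 2 = ∑ j, (y i * y j) * (if i = j then 1 else 0) := by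
        simp [sq]
      rw [e2, ← Finset.sum_add_distrib, Finset.sum_mul]
      exact Finset.sum_congr rfl fun j _ => by rw [hgE]; ring
    rw [Finset.sum_congr rfl fun i _ => e1 i, ← Finset.sum_mul, Finset.sum_add_distrib]
  have h8 : ∑ i, ∑ j, (y i * y j) * (g i j - if i = j then 1 else 0) ≤
      (N * 2) ^ 2 * ∑ i, ∑ j, |g i j - if i = j then 1 else 0| := by
    rw [Finset.mul_sum]
    refine Finset.sum_le_sum fun i _ => ?_
    rw [Finset.mul_sum]
    refine Finset.sum_le_sum fun j _ => ?_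
    refine (le_abs_self _).trans ?_
    rw [abs_mul]
    refine mul_le_mul_of_nonneg_right ?_ (abs_nonneg _)
    rw [abs_mul, sq]
    exact mul_le_mul (hyb i) (hyb j) (abs_nonneg _) ((abs_nonneg _).trans (hyb i))
  rw [h6, h7] at h4
  set S := ∑ j, y j ^ 2 with hS
  set D := ∑ i, ∑ j, (y i * y j) * (g i j - if i = j then 1 else 0) with hD
  have h9 : S * lam ε ≤ (N ^ 2 * (E ε (fun p => sp p) / lam ε) + D) * lam ε := by
    have e3 : N ^ 2 * (E ε (fun p => sp p) / lam ε) * lam ε = N ^ 2 * E ε (fun p => sp p) := by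
      field_simp
    rw [add_mul, e3]
    linarith
  have h10 := le_of_mul_le_mul_right h9 h2
  linarith

end

end Pool.Agent.T6.H4.GT
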