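import Pool.Agent.Y149.TL.Defs
import Pool.Agent.H304R3.HK.Defs

/-!
# Tensor products with the newforms with complex multiplication by `ℚ(i)`: definitions

The files are about the `L`-functions `L(M ⊗ θ ⊗ χ, s)`, `M` an arbitrary motive over `ℚ`, `θ` a newform
with complex multiplication by `ℚ(i)`, of arbitrary weight, and `χ` a Dirichlet character, on the line
at the edge of the half plane of absolute convergence.
-/

set_option autoImplicit false

namespace Pool.Agent.T6.H4.GT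

open Pool.Agent.H304R3.HK (tc)

/-- A Hecke character `ψ` of `ℚ(i)` of infinity type `k`: for the Gaussian integers `a` prime to the
modulus, `ψ((a)) = fin a (a / |a|)^k`, where `fin` is a character of `(ℤ[i] / modulus)ˣ`, extended by
zero to `ℤ[i]`, with `fin i = (-i)^k`, so that `ψ((a))` depends only on the ideal `(a)`. -/
structure HeckeChar (k : ℕ) where
  modulus : GaussianInt
  fin : GaussianInt →* ℂ
  modulus_ne : modulus ≠ 0
  per : ∀ a b : GaussianInt, modulus ∣ a - b → fin a = fin b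
  supp : ∀ a : GaussianInt, ¬ IsCoprime a modulus → fin a = 0
  nrm : ∀ a : GaussianInt, IsCoprime a modulus → ‖fin a‖ = 1
  unit : fin ⟨0, 1⟩ = (-Complex.I) ^ k

/-- `ψ((a)) = fin a (a / |a|)^k` -/
noncomputable def HeckeChar.val {k : ℕ} (ψ : HeckeChar k) (a : GaussianInt) : ℂ :=
  ψ.fin a * (tc a / (‖tc a‖ : ℂ)) ^ k

open Classical in
/-- a primary Gaussian integer of norm `p`, for the primes `p ≡ 1 mod 4` -/
noncomputable def gp (p : ℕ) : GaussianInt :=
  if h : ∃ a : GaussianInt, a.norm = p ∧ a.im % 2 = 0 ∧ (a.re + a.im) % 4 = 1 then h.choose else 0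

/-- The eigenvalues of Frobenius at `p` of the newform `θ_ψ = ∑ ψ(𝔞) N(𝔞)^{k/2} q^{N𝔞}` of weight `k + 1`,
the sum over the ideals `𝔞` of `ℤ[i]`: they are `p^{k/2} ψ(π)` and `p^{k/2} ψ(π')` for `p = π π'`, and
the two square roots of `p^k ψ((p))` for the inert primes `p ≡ 3 mod 4`. -/
noncomputable def HeckeChar.frob {k : ℕ} (ψ : HeckeChar k) (p : Nat.Primes) : Multiset ℂ :=
  if (p : ℕ) % 4 = 3 then
    {(((p : ℝ) ^ ((k : ℝ) / 2) : ℝ) : ℂ) * (ψ.fin ((p : ℕ) : GaussianInt)) ^ (1 / 2 : ℂ),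
      -((((p : ℝ) ^ ((k : ℝ) / 2) : ℝ) : ℂ) * (ψ.fin ((p : ℕ) : GaussianInt)) ^ (1 / 2 : ℂ))}
  else
    {(((p : ℝ) ^ ((k : ℝ) / 2) : ℝ) : ℂ) * ψ.val (gp p),
      (((p : ℝ) ^ ((k : ℝ) / 2) : ℝ) : ℂ) * ψ.val (star (gp p))}

open Pool.Agent.Y149.PK (tens) in
open Pool.Agent.Y149.TL in
/-- The eigenvalues of Frobenius at `p` on `H ⊗ θ_ψ ⊗ χ`. -/
noncomputable def frobTwist (H : Motive) {k q : ℕ} (ψ : HeckeChar k) (χ : DirichletCharacter ℂ q)
    (p : Nat.Primes) : Multiset ℂ :=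
  (tens (H.frob p) (ψ.frob p)).map fun z => χ ((p : ℕ) : ZMod q) * z

end Pool.Agent.T6.H4.GT
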