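import Pool.Agent.T6.H4.GT.Bes
import Pool.Agent.Y149.TL.Shift

/-! The twists of a motive by the newforms with complex multiplication by `ℚ(i)`. -/

set_option autoImplicit false

namespace Pool.Agent.T6.H4.GT

open Finset Filter Topology Complex ComplexConjugate Polynomial
open Pool.Agent.H304R3.HK
open Pool.Agent.W354.PK (psik)
open Pool.Agent.W354.PK.TK (psik_apply)
open Pool.Agent.Y149.CM
open Pool.Agent.Y149.TL
open Pool.Agent.Y149.PK (tens sq_perturb)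
open Pool.Agent.H341R2 (E lam lam_tendsto)

theorem tens_pure {w w' : ℤ} {N N' : ℕ} {p : Nat.Primes} {s t : Multiset ℂ} (hs : Pure w N p s)
    (ht : Pure w' N' p t) : Pure (w + w') (N * N') p (tens s t) := by
  have hp0 : (0 : ℝ) < (p : ℕ) := by exact_mod_cast p.2.pos
  unfold tens
  refine ⟨fun z hz => ?_, ?_⟩
  · obtain ⟨x, hx, rfl⟩ := Multiset.mem_map.1 hz
    obtain ⟨h1, h2⟩ := Multiset.mem_product.1 hx
    rw [norm_mul, hs.1 _ h1, ht.1 _ h2, ← Real.rpow_add hp0]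
    congr 1
    push_cast
    ring
  · rw [Multiset.card_map, Multiset.card_product]
    exact Nat.mul_le_mul hs.2 ht.2

theorem tens_sum (s t : Multiset ℂ) : (tens s t).sum = s.sum * t.sum := by
  unfold tens
  exact sum_product s t

variable {k : ℕ}

/-- the elements of norm prime to the modulus -/
theorem fin_norm (ψ : HeckeChar k) {p : Nat.Primes} (hp : ¬ ((p : ℕ) : ℤ) ∣ ψ.modulus.norm)
    {a : GaussianInt} (ha : a ∣ (((p : ℕ) : ℤ) : GaussianInt)) : ‖ψ.fin a‖ = 1 := by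
  refine ψ.nrm a ?_
  have h8 : IsCoprime ((p : ℕ) : ℤ) ψ.modulus.norm := by
    rw [Int.isCoprime_iff_gcd_eq_one, Int.gcd_eq_natAbs]
    simp only [Int.natAbs_natCast]
    exact (Nat.Prime.coprime_iff_not_dvd p.2).2 fun h => hp (Int.natCast_dvd.2 h)
  have h9 : IsCoprime (((p : ℕ) : ℤ) : GaussianInt) ((ψ.modulus.norm : ℤ) : GaussianInt) := by
    obtain ⟨r, s, hrs⟩ := h8
    exact ⟨r, s, by exact_mod_cast congrArg (Int.cast : ℤ → GaussianInt) hrs⟩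
  exact (h9.of_isCoprime_of_dvd_left ha).of_isCoprime_of_dvd_right (norm_dvd ψ.modulus)

theorem val_eq (ψ : HeckeChar k) {a : GaussianInt} (ha : a ≠ 0) : ψ.val a = psik k ψ.fin a := by
  rw [psik_apply, if_neg ha]
  rfl

theorem norm_val (ψ : HeckeChar k) {p : Nat.Primes} (hp : ¬ ((p : ℕ) : ℤ) ∣ ψ.modulus.norm)
    {a : GaussianInt} (ha : a ∣ (((p : ℕ) : ℤ) : GaussianInt)) (h0 : a ≠ 0) : ‖ψ.val a‖ = 1 := by
  unfold HeckeChar.val
  have h : ‖tc a‖ ≠ 0 := norm_ne_zero_iff.2 (Pool.Agent.H304R3.HK.G1a.tc_ne h0)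
  rw [norm_mul, fin_norm ψ hp ha, norm_pow, norm_div, Complex.norm_real, norm_norm, div_self h]
  simp

/-- **The Frobenius eigenvalues of `θ_ψ`.** -/
theorem frob_spec (ψ : HeckeChar k) (p : Nat.Primes) (h2 : (p : ℕ) ≠ 2)
    (hp : ¬ ((p : ℕ) : ℤ) ∣ ψ.modulus.norm) :
    Pure (k : ℤ) 2 p (ψ.frob p) ∧
      (ψ.frob p).sum = ((((p : ℕ) : ℝ) ^ (((k : ℤ) : ℝ) / 2) : ℝ) : ℂ) * bb (psik k ψ.fin) p := by
  have hp0 : (0 : ℝ) < (p : ℕ) := by exact_mod_cast p.2.pos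
  have hs : (0 : ℝ) < ((p : ℕ) : ℝ) ^ ((k : ℝ) / 2) := Real.rpow_pos_of_pos hp0 _
  have hk : ((k : ℤ) : ℝ) = (k : ℝ) := by simp
  unfold HeckeChar.frob Pool.Agent.Y149.TL.Pure
  rw [hk]
  rcases M3.p_cases p.2 with h | ⟨ho, h3⟩ | ⟨ho, h1⟩
  · exact absurd h h2
  · rw [if_pos h3]
    have h4 : ‖(ψ.fin ((p : ℕ) : GaussianInt)) ^ (1 / 2 : ℂ)‖ = 1 := by
      have h5 : ‖ψ.fin ((p : ℕ) : GaussianInt)‖ = 1 := by
        have := fin_norm ψ hp (dvd_refl (((p : ℕ) : ℤ) : GaussianInt))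
        simpa using this
      have h6 : ψ.fin ((p : ℕ) : GaussianInt) ≠ 0 := by
        intro h
        rw [h] at h5
        simp at h5
      rw [Complex.norm_cpow_of_ne_zero h6, h5]
      simp
    refine ⟨⟨fun z hz => ?_, by simp⟩, ?_⟩
    · simp only [Multiset.insert_eq_cons, Multiset.mem_cons, Multiset.mem_singleton] at hz
      rcases hz with rfl | rfl
      · rw [norm_mul, h4, mul_one, Complex.norm_real, Real.norm_of_nonneg hs.le]
      · rw [norm_neg, norm_mul, h4, mul_one, Complex.norm_real, Real.norm_of_nonneg hs.le]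
    · rw [bb_inert' ψ.uh p.2 h3]
      simp
  · rw [if_neg (by omega)]
    have hne := gp_ne p.2 h1
    have hne' := star_ne hne
    have hnorm : (gp p).norm = (p : ℕ) := (gp_spec p.2 h1).1
    have hd : gp p ∣ (((p : ℕ) : ℤ) : GaussianInt) := by
      rw [← hnorm]
      exact norm_dvd _
    have hd' : star (gp p) ∣ (((p : ℕ) : ℤ) : GaussianInt) := by
      rw [← hnorm, Zsqrtd.norm_eq_mul_conj]
      exact dvd_mul_left _ _
    refine ⟨⟨fun z hz => ?_, by simp⟩, ?_⟩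
    · simp only [Multiset.insert_eq_cons, Multiset.mem_cons, Multiset.mem_singleton] at hz
      rcases hz with rfl | rfl
      · rw [norm_mul, norm_val ψ hp hd hne, mul_one, Complex.norm_real, Real.norm_of_nonneg hs.le]
      · rw [norm_mul, norm_val ψ hp hd' hne', mul_one, Complex.norm_real,
          Real.norm_of_nonneg hs.le]
    · rw [bb_gp ψ.uh p.2 h1, ← val_eq ψ hne, ← val_eq ψ hne']
      simp only [Multiset.insert_eq_cons, Multiset.sum_cons, Multiset.sum_singleton]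
      ring

/-- the normalised trace on the motive, at the split primes -/
noncomputable def QQ' (H : Motive) (p : Nat.Primes) : ℂ :=
  mt H.weight H.rank H.frob p * ((sp p : ℝ) : ℂ)

theorem norm_QQ' (H : Motive) (p : Nat.Primes) : ‖QQ' H p‖ ≤ (H.rank : ℝ) * sp p := by
  unfold QQ'
  rw [norm_mul, Complex.norm_real, Real.norm_of_nonneg (sp_nonneg' p)]
  exact mul_le_mul_of_nonneg_right (norm_mt _ _ _ _) (sp_nonneg' p)

theorem sp_A (ψ : HeckeChar k) {q : ℕ} (χ : DirichletCharacter ℂ q) (τ : ℝ) (p : Nat.Primes)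
    (h2 : (p : ℕ) ≠ 2) : ((sp p : ℝ) : ℂ) * A ψ χ τ p = A ψ χ τ p := by
  rcases M3.p_cases p.2 with h | ⟨ho, h3⟩ | ⟨ho, h1⟩
  · exact absurd h h2
  · unfold A
    rw [bb_inert' ψ.uh p.2 h3]
    simp
  · have : sp p = 1 := by simp [sp, h1]
    rw [this]
    simp

/-- the local data at a good prime -/
theorem twist_spec (H : Motive) (ψ : HeckeChar k) {q : ℕ} (χ : DirichletCharacter ℂ q) (τ : ℝ)
    (p : Nat.Primes) (hH : Pure H.weight H.rank p (H.frob p)) (h2 : (p : ℕ) ≠ 2)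
    (hp : ¬ ((p : ℕ) : ℤ) ∣ ψ.modulus.norm) (hq : (p : ℕ).Coprime q) :
    Pure (H.weight + (k : ℤ)) (H.rank * 2) p (frobTwist H ψ χ p) ∧
      QQ' H p * A ψ χ τ p = (frobTwist H ψ χ p).sum /
        ((((p : ℕ) : ℝ) ^ (((H.weight + (k : ℤ) : ℤ) : ℝ) / 2) : ℝ) : ℂ) *
          ((p : ℕ) : ℂ) ^ (-((τ : ℂ) * I)) := by
  have hp0 : (0 : ℝ) < (p : ℕ) := by exact_mod_cast p.2.pos
  obtain ⟨hf, hsum⟩ := frob_spec ψ p h2 hp
  have ht := tens_pure hH hf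
  have hχ : ‖χ ((p : ℕ) : ZMod q)‖ = 1 :=
    χ.unit_norm_eq_one ((ZMod.isUnit_iff_coprime _ _).2 hq).unit
  refine ⟨⟨fun z hz => ?_, ?_⟩, ?_⟩
  · unfold frobTwist at hz
    obtain ⟨x, hx, rfl⟩ := Multiset.mem_map.1 hz
    rw [norm_mul, hχ, one_mul]
    exact ht.1 x hx
  · unfold frobTwist
    rw [Multiset.card_map]
    exact ht.2
  · have e1 : (frobTwist H ψ χ p).sum = χ ((p : ℕ) : ZMod q) * ((H.frob p).sum *
        (((((p : ℕ) : ℝ) ^ (((k : ℤ) : ℝ) / 2) : ℝ) : ℂ) * bb (psik k ψ.fin) p)) := by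
      unfold frobTwist
      rw [Multiset.sum_map_mul_left, Multiset.map_id', tens_sum, hsum]
    have e2 : ((((p : ℕ) : ℝ) ^ (((H.weight + (k : ℤ) : ℤ) : ℝ) / 2) : ℝ) : ℂ) =
        ((((p : ℕ) : ℝ) ^ ((H.weight : ℝ) / 2) : ℝ) : ℂ) *
        ((((p : ℕ) : ℝ) ^ (((k : ℤ) : ℝ) / 2) : ℝ) : ℂ) := by
      rw [← Complex.ofReal_mul, ← Real.rpow_add hp0]
      congr 2
      push_cast
      ring
    have e3 := cpow_half H.weight p
    have e4 := cpow_half (k : ℤ) p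
    unfold QQ'
    rw [mul_assoc, sp_A ψ χ τ p h2, e1, e2]
    unfold Pool.Agent.Y149.TL.mt A
    rw [if_pos hH]
    field_simp

theorem good_ev (H : Motive) (ψ : HeckeChar k) {q : ℕ} (hq : q ≠ 0) :
    ∀ᶠ p : Nat.Primes in cofinite, Pure H.weight H.rank p (H.frob p) ∧ (p : ℕ) ≠ 2 ∧
      ¬ ((p : ℕ) : ℤ) ∣ ψ.modulus.norm ∧ (p : ℕ).Coprime q := by
  have h1 : ∀ᶠ p : Nat.Primes in cofinite, (p : ℕ) ≠ 2 := by
    rw [eventually_cofinite]
    simpa using fin_two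
  have h2 : ∀ᶠ p : Nat.Primes in cofinite, ¬ ((p : ℕ) : ℤ) ∣ ψ.modulus.norm := by
    rw [eventually_cofinite]
    simpa using fin_dvd' ψ.norm_ne
  have h3 : ∀ᶠ p : Nat.Primes in cofinite, ¬ (p : ℕ) ∣ q := by
    rw [eventually_cofinite]
    simpa using fin_dvd hq
  filter_upwards [H.pure, h1, h2, h3] with p a1 a2 a3 a4
  exact ⟨⟨a1.1, a1.2.le⟩, a2, a3, (Nat.Prime.coprime_iff_not_dvd p.2).2 a4⟩

/-- the size of one function -/
theorem link (H : Motive) (ψ : HeckeChar k) {q : ℕ} (hq : q ≠ 0) (χ : DirichletCharacter ℂ q)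
    (τ : ℝ) {B : Nat.Primes → ℂ[X]} (hB : IsEuler (H.weight + (k : ℤ)) (frobTwist H ψ χ) B) :
    (∀ᶠ ε : ℝ in 𝓝[>] 0, LFun B (edge (H.weight + (k : ℤ)) τ + ε) ≠ 0) ∧
    Tendsto (fun ε : ℝ => size (H.weight + (k : ℤ)) B τ ε -
      E ε (fun p => (QQ' H p * A ψ χ τ p).re) / lam ε) (𝓝[>] 0) (𝓝 0) := by
  have hg := good_ev H ψ hq
  refine line_log hB (N := H.rank * 2) (hg.mono fun p hp =>
    (twist_spec H ψ χ τ p hp.1 hp.2.1 hp.2.2.1 hp.2.2.2).1) τ (C0 := H.rank * 2) (fun p => ?_)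
    (hg.mono fun p hp => ?_)
  · refine (Complex.abs_re_le_norm _).trans ?_
    rw [norm_mul]
    refine mul_le_mul ((norm_QQ' H p).trans ?_) (norm_A_le ψ χ τ p) (norm_nonneg _)
      (Nat.cast_nonneg _)
    exact mul_le_of_le_one_right (Nat.cast_nonneg _) ((le_abs_self _).trans (sp_le' p))
  · rw [(twist_spec H ψ χ τ p hp.1 hp.2.1 hp.2.2.1 hp.2.2.2).2]

/-- **The family.** -/
theorem family (ψ : ∀ k : ℕ, HeckeChar k) (H : Motive) (m : ℕ) (k : Fin m → ℕ)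
    (hk : ∀ j, 1 ≤ k j) (q : Fin m → ℕ) (hq : ∀ j, q j ≠ 0)
    (χ : ∀ j, DirichletCharacter ℂ (q j)) (τ : Fin m → ℝ)
    (hsep : ∀ i j, i ≠ j → k i = k j → τ i = τ j →
      ∃ n : ℕ, n % 4 = 1 ∧ n.Coprime (q i) ∧ n.Coprime (q j) ∧ χ i n ≠ χ j n)
    (B : Fin m → Nat.Primes → ℂ[X])
    (hB : ∀ j, IsEuler (H.weight + k j) (frobTwist H (ψ (k j)) (χ j)) (B j)) {η : ℝ} (hη : 0 < η) :
    ∀ᶠ ε : ℝ in 𝓝[>] 0, (∀ j, LFun (B j) (edge (H.weight + k j) (τ j) + ε) ≠ 0) ∧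
      ∑ j, size (H.weight + k j) (B j) (τ j) ε ^ 2 ≤ (H.rank : ℝ) ^ 2 / 2 + η := by
  classical
  have hlink := fun j => link H (ψ (k j)) (hq j) (χ j) (τ j) (hB j)
  have h1 : ∀ η : ℝ, 0 < η → ∀ᶠ ε : ℝ in 𝓝[>] 0,
      ∑ j : Fin m, (E ε (fun p => (QQ' H p * A (ψ (k j)) (χ j) (τ j) p).re) / lam ε) ^ 2 ≤
        (H.rank : ℝ) ^ 2 / 2 + η := by
    intro η hη
    refine bessel (Aj := fun j => A (ψ (k j)) (χ j) (τ j))
      (fun j p => norm_A_le (ψ (k j)) (χ j) (τ j) p) (fun i j => ?_) (Nat.cast_nonneg _)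
      (norm_QQ' H) hη
    split_ifs with h
    · subst h
      exact gram_diag (hk i) (ψ (k i)) (hq i) (χ i) (τ i)
    · exact gram_pair ψ (hk i) (hq i) (hq j) (χ i) (χ j) (τ i) (τ j) (hsep i j h)
  have h2 := sq_perturb (Finset.univ : Finset (Fin m))
    (fun j ε => E ε (fun p => (QQ' H p * A (ψ (k j)) (χ j) (τ j) p).re) / lam ε)
    (fun j ε => size (H.weight + k j) (B j) (τ j) ε) ((H.rank : ℝ) ^ 2 / 2) (by positivity)
    h1 (fun j _ => (hlink j).2) hη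
  have h3 : ∀ᶠ ε : ℝ in 𝓝[>] 0, ∀ j, LFun (B j) (edge (H.weight + k j) (τ j) + ε) ≠ 0 :=
    eventually_all.2 fun j => (hlink j).1
  exact h3.and h2

/-- the orders -/
theorem orders (ψ : ∀ k : ℕ, HeckeChar k) (H : Motive) (m : ℕ) (k : Fin m → ℕ)
    (hk : ∀ j, 1 ≤ k j) (q : Fin m → ℕ) (hq : ∀ j, q j ≠ 0)
    (χ : ∀ j, DirichletCharacter ℂ (q j)) (τ : Fin m → ℝ)
    (hsep : ∀ i j, i ≠ j → k i = k j → τ i = τ j →
      ∃ n : ℕ, n % 4 = 1 ∧ n.Coprime (q i) ∧ n.Coprime (q j) ∧ χ i n ≠ χ j n)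
    (B : Fin m → Nat.Primes → ℂ[X])
    (hB : ∀ j, IsEuler (H.weight + k j) (frobTwist H (ψ (k j)) (χ j)) (B j))
    (r : Fin m → ℤ) (hr : ∀ j, HasOrder (H.weight + k j) (B j) (τ j) (r j)) :
    2 * ∑ j, r j ^ 2 ≤ (H.rank : ℤ) ^ 2 := by
  have h1 : Tendsto (fun ε : ℝ => ∑ j, size (H.weight + k j) (B j) (τ j) ε ^ 2) (𝓝[>] 0)
      (𝓝 (∑ j, (-r j : ℝ) ^ 2)) :=
    tendsto_finsetSum _ fun j _ => (line_order (hr j)).pow 2
  have h2 : ∑ j, (-r j : ℝ) ^ 2 ≤ (H.rank : ℝ) ^ 2 / 2 := by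
    refine le_of_forall_pos_le_add fun η hη => ?_
    refine le_of_tendsto h1 ?_
    exact (family ψ H m k hk q hq χ τ hsep B hB hη).mono fun ε h => h.2
  have h3 : (2 : ℝ) * ∑ j, (r j : ℝ) ^ 2 ≤ (H.rank : ℝ) ^ 2 := by
    have h4 : ∑ j, (-r j : ℝ) ^ 2 = ∑ j, (r j : ℝ) ^ 2 :=
      Finset.sum_congr rfl fun j _ => by ring
    rw [h4] at h2
    linarith
  exact_mod_cast h3

end Pool.Agent.T6.H4.GT
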