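import Pool.Agent.Y149.CM.Ent
import Pool.Agent.Y149.CM.Nz
import Pool.Agent.Y149.CM.Mean
import Pool.Agent.H341R2.TwistBessel
import Pool.Agent.T6.H4.GT.Defs

/-! Bounded prime sums for the Hecke characters of `ℚ(i)` of positive infinity type at all heights, and
for the Dirichlet characters. -/

set_option autoImplicit false

namespace Pool.Agent.T6.H4.GT

open Finset Filter Topology Complex
open Pool.Agent.H304R3.HK
open Pool.Agent.W354.PK (psik)
open Pool.Agent.W354.PK.TK (psik_apply)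
open Pool.Agent.Y149.CM
open Pool.Agent.H341R2 (E lam summable_E E_add E_const_mul E_sum E_le E_nonneg lam_tendsto
  summable_prime_rpow w_nonneg primeSum_bounded norm_prime_cpow)

/-- the hypotheses on a function on the Gaussian integers that give a Hecke character of type `m` -/
theorem uh_of {m : ℕ} {g : GaussianInt →* ℂ} (hle : ∀ a, ‖g a‖ ≤ 1)
    (hi : g ⟨0, 1⟩ = (-I) ^ m) : UH (psik m g) where
  h0 := by rw [psik_apply, if_pos rfl]
  hb := by
    intro a
    rw [psik_apply]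
    split_ifs with h
    · simp
    · rw [norm_mul, norm_pow, norm_div, Complex.norm_real, norm_norm,
        div_self (norm_ne_zero_iff.2 (Pool.Agent.H304R3.HK.G1a.tc_ne h)), one_pow, mul_one]
      exact hle a
  hi := by
    have h0 : (⟨0, 1⟩ : GaussianInt) ≠ 0 := by
      intro h
      have := congrArg Zsqrtd.im h
      simp at this
    rw [psik_apply, if_neg h0, hi]
    have e : tc ⟨0, 1⟩ = Complex.I := by simp [tc]
    rw [e]
    simp only [Complex.norm_I, Complex.ofReal_one, div_one]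
    rw [← mul_pow]
    simp

theorem psik_sq (m : ℕ) (g : GaussianInt →* ℂ) : (fun a => (psik m g a) ^ 2) =
    fun a => psik (2 * m) (g ^ 2) a := by
  funext a
  rw [psik_apply, psik_apply]
  split_ifs with h
  · simp
  · rw [mul_pow, ← pow_mul, mul_comm m 2, MonoidHom.pow_apply]

/-- the prime sums of the Hecke characters of positive infinity type are bounded at every height -/
theorem hecke_line {m : ℕ} (hm : 1 ≤ m) {Q : GaussianInt} {g : GaussianInt →* ℂ} (H : PF Q g)
    (hi : g ⟨0, 1⟩ = (-I) ^ m) (τ : ℝ) :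
    ∃ C : ℝ, ∀ᶠ ε : ℝ in 𝓝[>] 0,
      |E ε fun p => (bb (psik m g) p * ((p : ℕ) : ℂ) ^ (-(τ * I))).re| ≤ C := by
  have hU := uh_of H.le hi
  obtain ⟨F, hF, sF⟩ := entire hm H hU
  have H2 : PF Q (g ^ 2) := by
    refine ⟨H.q0, fun a b h => ?_, fun a => ?_⟩
    · rw [MonoidHom.pow_apply, MonoidHom.pow_apply, H.per a b h]
    · rw [MonoidHom.pow_apply, norm_pow]
      exact pow_le_one₀ (norm_nonneg _) (H.le a)
  have hsq := psik_sq m g
  have hU2 : UH (psik (2 * m) (g ^ 2)) := by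
    refine ⟨?_, fun a => ?_, ?_⟩
    · rw [← congrFun hsq 0, hU.h0]; simp
    · rw [← congrFun hsq a, norm_pow]
      exact pow_le_one₀ (norm_nonneg _) (hU.hb a)
    · rw [← congrFun hsq ⟨0, 1⟩, hU.hi]; simp
  obtain ⟨G, hG, sG⟩ := entire (by omega : 1 ≤ 2 * m) H2 hU2
  have sG' : ∀ s : ℂ, 1 < s.re →
      HasSum (fun n : ℕ => bb (fun a => (psik m g a) ^ 2) n * (n : ℂ) ^ (-s)) (G s) := by
    intro s hs
    rw [hsq]
    exact sG s hs
  set h : GaussianInt →* ℂ := tw (psik m g) (2 * ((-τ : ℝ) : ℂ) * I) with hh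
  have hUh : UH h := tw_UH hU (-τ)
  have hbb : ∀ n : ℕ, bb h n = bb (psik m g) n * (Real.sqrt n : ℂ) ^ (2 * (((-τ : ℝ) : ℂ) * I)) := by
    intro n
    rw [← bb_abs]
    congr 1
    funext a
    rw [hh, tw_apply, mul_assoc]
  have hbb2 : ∀ n : ℕ, bb (fun a => (h a) ^ 2) n =
      bb (fun a => (psik m g a) ^ 2) n * (Real.sqrt n : ℂ) ^ (2 * (2 * (((-τ : ℝ) : ℂ) * I))) := by
    intro n
    rw [← bb_abs]
    congr 1
    funext a
    rw [hh, tw_apply, mul_pow, ← Complex.cpow_nat_mul]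
    congr 2
    push_cast
    ring
  have k1 : ∀ s : ℂ, 1 < s.re →
      HasSum (fun n : ℕ => bb h n * (n : ℂ) ^ (-s)) (F (s + τ * I)) := by
    intro s hs
    have h1 := sF (s + τ * I) (by simpa using hs)
    refine h1.congr_fun fun n => ?_
    rcases Nat.eq_zero_or_pos n with rfl | hn
    · rw [(lg_bb _ hUh).b0, (lg_bb _ hU).b0, zero_mul, zero_mul]
    · rw [hbb, mul_assoc, sqrt_cpow n hn]
      congr 3
      push_cast
      ring
  have k2 : ∀ s : ℂ, 1 < s.re →
      HasSum (fun n : ℕ => bb (fun a => (h a) ^ 2) n * (n : ℂ) ^ (-s)) (G (s + 2 * (τ * I))) := by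
    intro s hs
    have h1 := sG' (s + 2 * (τ * I)) (by simpa using hs)
    refine h1.congr_fun fun n => ?_
    rcases Nat.eq_zero_or_pos n with rfl | hn
    · have hh2 := nzr_sq_UH _ hU
      have h5 : bb (fun a => psik m g a ^ 2) 0 = 0 := (lg_bb _ hh2).b0
      have hh3 := nzr_sq_UH _ hUh
      have h6 : bb (fun a => h a ^ 2) 0 = 0 := (lg_bb _ hh3).b0
      rw [h5, h6, zero_mul, zero_mul]
    · rw [hbb2, mul_assoc, sqrt_cpow n hn]
      congr 3
      push_cast
      ring
  obtain ⟨C, hC⟩ := sum_bounded h hUh (fun s => F (s + τ * I)) (fun s => G (s + 2 * (τ * I)))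
    (hF.comp (by fun_prop)) (hG.comp (by fun_prop)) k1 k2
  refine ⟨C, ?_⟩
  filter_upwards [hC] with ε h1
  have e : (fun p : Nat.Primes => (bb (psik m g) p * ((p : ℕ) : ℂ) ^ (-(τ * I))).re) =
      fun p : Nat.Primes => (bb h p).re := by
    funext p
    rw [hbb]
    have h2 := sqrt_cpow (p : ℕ) p.2.pos (((-τ : ℝ) : ℂ) * I) 0
    rw [neg_zero, Complex.cpow_zero, mul_one] at h2
    rw [h2]
    congr 3
    push_cast
    ring
  rw [e]
  exact h1

/-- the prime sums of the Dirichlet characters are bounded -/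
theorem dir_line {N : ℕ} [NeZero N] (χ : DirichletCharacter ℂ N) (τ : ℝ) (h : χ ≠ 1 ∨ τ ≠ 0) :
    ∃ C : ℝ, ∀ᶠ ε : ℝ in 𝓝[>] 0,
      |E ε fun p => (χ ((p : ℕ) : ZMod N) * ((p : ℕ) : ℂ) ^ (-(τ * I))).re| ≤ C := by
  obtain ⟨C, hC⟩ := primeSum_bounded χ τ h
  refine ⟨C, ?_⟩
  filter_upwards [hC, self_mem_nhdsWithin] with ε h1 h2
  have hε : (0 : ℝ) < ε := h2
  convert h1 using 2
  rw [E, Complex.re_tsum]
  · refine tsum_congr fun p => ?_
    have h0 : ((p : ℕ) : ℂ) ≠ 0 := by exact_mod_cast p.2.ne_zero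
    have h4 : ((p : ℕ) : ℂ) ^ (-(1 + ε + τ * I) : ℂ) =
        ((p : ℕ) : ℂ) ^ (-(τ * I)) * (((p : ℝ) ^ (-(1 + ε)) : ℝ) : ℂ) := by
      rw [Complex.ofReal_cpow (by positivity)]
      push_cast
      rw [← Complex.cpow_add _ _ h0]
      congr 1
      ring
    rw [h4, ← mul_assoc, Complex.re_mul_ofReal]
  · refine Summable.of_norm_bounded (summable_prime_rpow (r := -(1 + ε)) (by linarith)) fun p => ?_
    rw [norm_mul, norm_prime_cpow]
    refine mul_le_of_le_one_left (by positivity) ?_ |>.trans (le_of_eq ?_)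
    · exact χ.norm_le_one _
    · congr 1
      simp

end Pool.Agent.T6.H4.GT
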