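import Pool.Agent.T6.H4.GT.Loc

/-! The Gram matrix of the normalised traces. -/

set_option autoImplicit false

namespace Pool.Agent.T6.H4.GT

open Finset Filter Topology Complex ComplexConjugate
open Pool.Agent.H304R3.HK
open Pool.Agent.W354.PK (psik)
open Pool.Agent.Y149.CM
open Pool.Agent.H341R2 (E lam summable_E E_add E_const_mul E_sum E_le E_nonneg lam_tendsto)

variable {k l : ℕ}

/-- mean values as `ε → 0+` -/
abbrev Lim0 (φ : Nat.Primes → ℝ) (x : ℝ) : Prop := Lim (𝓝[>] 0) φ x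

theorem fin_two : {p : Nat.Primes | (p : ℕ) = 2}.Finite := by
  refine Set.Finite.subset (Set.finite_singleton (⟨2, Nat.prime_two⟩ : Nat.Primes)) ?_
  intro p hp
  exact Subtype.ext hp

theorem fin_dvd' {n : ℤ} (hn : n ≠ 0) : {p : Nat.Primes | ((p : ℕ) : ℤ) ∣ n}.Finite := by
  refine (fin_dvd (Int.natAbs_ne_zero.2 hn)).subset ?_
  intro p hp
  exact Int.natCast_dvd.1 hp

/-- the term of a Hecke character in the Gram matrix -/
theorem lim_hecke {m : ℕ} (hm : 1 ≤ m) {n : ℤ} {g : GaussianInt →* ℂ} (H : PN n g) (hn : n ≠ 0)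
    (hi : g ⟨0, 1⟩ = (-I) ^ m) (τ : ℝ) :
    Lim0 (fun p => (bb (psik m g) p * ((p : ℕ) : ℂ) ^ (-(τ * I))).re) 0 := by
  obtain ⟨C, hC⟩ := hecke_line hm (H.toPF hn) hi τ
  exact Lim_of_bounded le_rfl hC

theorem lim_dir {N : ℕ} [NeZero N] (χ : DirichletCharacter ℂ N) (τ : ℝ) (h : χ ≠ 1 ∨ τ ≠ 0) :
    Lim0 (fun p => (χ ((p : ℕ) : ZMod N) * ((p : ℕ) : ℂ) ^ (-(τ * I))).re) 0 := by
  obtain ⟨C, hC⟩ := dir_line χ τ h
  exact Lim_of_bounded le_rfl hC

theorem term_bd {h : GaussianInt →* ℂ} (hh : UH h) (τ : ℝ) (p : Nat.Primes) :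
    |(bb h p * ((p : ℕ) : ℂ) ^ (-(τ * I))).re| ≤ 2 := by
  refine (Complex.abs_re_le_norm _).trans ?_
  rw [norm_mul, norm_cpow_I, mul_one]
  exact norm_bb_le hh p

theorem dir_bd {N : ℕ} (χ : DirichletCharacter ℂ N) (τ : ℝ) (p : Nat.Primes) :
    |(χ ((p : ℕ) : ZMod N) * ((p : ℕ) : ℂ) ^ (-(τ * I))).re| ≤ 1 := by
  refine (Complex.abs_re_le_norm _).trans ?_
  rw [norm_mul, norm_cpow_I, mul_one]
  exact χ.norm_le_one _

theorem AA_bd (ψ : HeckeChar k) (ψ' : HeckeChar l) {q q' : ℕ} (χ : DirichletCharacter ℂ q)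
    (χ' : DirichletCharacter ℂ q') (τ τ' : ℝ) (p : Nat.Primes) :
    |(A ψ χ τ p * conj (A ψ' χ' τ' p)).re| ≤ 4 := by
  refine (Complex.abs_re_le_norm _).trans ?_
  rw [norm_mul, Complex.norm_conj]
  have h1 := norm_A_le ψ χ τ p
  have h2 := norm_A_le ψ' χ' τ' p
  nlinarith [norm_nonneg (A ψ χ τ p), norm_nonneg (A ψ' χ' τ' p)]

/-- **Different infinity types.** -/
theorem gram_off' (ψ : HeckeChar k) (ψ' : HeckeChar l) {q q' : ℕ} (hq : q ≠ 0) (hq' : q' ≠ 0)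
    (χ : DirichletCharacter ℂ q) (χ' : DirichletCharacter ℂ q') (τ τ' : ℝ) (h : l < k) :
    Lim0 (fun p => (A ψ χ τ p * conj (A ψ' χ' τ' p)).re) 0 := by
  have hU1 : UH (psik (k - l) (g1 ψ ψ' χ χ')) :=
    uh_of (g1_PN ψ ψ' χ χ').le (g1_unit ψ ψ' χ χ' h.le)
  have hU2 : UH (psik (k + l) (g2 ψ ψ' χ χ')) := uh_of (g2_PN ψ ψ' χ χ').le (g2_unit ψ ψ' χ χ')
  have h1 := lim_hecke (by omega) (g1_PN ψ ψ' χ χ') (mod_ne ψ ψ' hq hq')
    (g1_unit ψ ψ' χ χ' h.le) (τ - τ')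
  have h2 := lim_hecke (by omega) (g2_PN ψ ψ' χ χ') (mod_ne ψ ψ' hq hq')
    (g2_unit ψ ψ' χ χ') (τ - τ')
  have h3 := Lim_add le_rfl (term_bd hU1 (τ - τ')) (term_bd hU2 (τ - τ')) h1 h2
  rw [add_zero] at h3
  refine Lim_congr le_rfl (B := 4) (B' := 4) (fun p => ?_) (AA_bd ψ ψ' χ χ' τ τ') ?_ h3
  · refine (abs_add_le _ _).trans ?_
    linarith [term_bd hU1 (τ - τ') p, term_bd hU2 (τ - τ') p]
  · refine fin_two.subset fun p hp => ?_
    by_contra hp2
    apply hp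
    rw [prod_off ψ ψ' χ χ' h.le τ τ' p hp2, Complex.add_re]

theorem gram_off (ψ : HeckeChar k) (ψ' : HeckeChar l) {q q' : ℕ} (hq : q ≠ 0) (hq' : q' ≠ 0)
    (χ : DirichletCharacter ℂ q) (χ' : DirichletCharacter ℂ q') (τ τ' : ℝ) (h : k ≠ l) :
    Lim0 (fun p => (A ψ χ τ p * conj (A ψ' χ' τ' p)).re) 0 := by
  rcases lt_or_gt_of_ne h with h1 | h1
  · have h2 := gram_off' ψ' ψ hq' hq χ' χ τ' τ h1
    have e : (fun p => (A ψ χ τ p * conj (A ψ' χ' τ' p)).re) =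
        fun p => (A ψ' χ' τ' p * conj (A ψ χ τ p)).re := by
      funext p
      rw [← Complex.conj_re, map_mul, Complex.conj_conj, mul_comm]
    rw [e]
    exact h2
  · exact gram_off' ψ ψ' hq hq' χ χ' τ τ' h1

/-- the character `χ χ'⁻¹` modulo `4 q q'` -/
noncomputable def XC {q q' : ℕ} (χ : DirichletCharacter ℂ q) (χ' : DirichletCharacter ℂ q') :
    DirichletCharacter ℂ (4 * (q * q')) :=
  DirichletCharacter.changeLevel (Dvd.dvd.mul_left (dvd_mul_right q q') 4) χ *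
    (DirichletCharacter.changeLevel (Dvd.dvd.mul_left (dvd_mul_left q' q) 4) χ')⁻¹

/-- the quadratic character modulo four -/
noncomputable def chi4 : DirichletCharacter ℂ 4 := ZMod.χ₄.ringHomComp (Int.castRingHom ℂ)

/-- the quadratic character modulo four, with modulus `4 n` -/
noncomputable def X4 (n : ℕ) : DirichletCharacter ℂ (4 * n) :=
  DirichletCharacter.changeLevel (dvd_mul_right 4 n) chi4

theorem level_val {m n : ℕ} (h : m ∣ n) (χ : DirichletCharacter ℂ m) (a : ℕ) (ha : a.Coprime n) :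
    DirichletCharacter.changeLevel h χ ((a : ℕ) : ZMod n) = χ ((a : ℕ) : ZMod m) := by
  have hu : IsUnit ((a : ℕ) : ZMod n) := (ZMod.isUnit_iff_coprime _ _).2 ha
  have h1 := DirichletCharacter.changeLevel_eq_cast_of_dvd χ h hu.unit
  rwa [IsUnit.unit_spec, ZMod.cast_natCast h] at h1

theorem XC_apply {q q' : ℕ} (χ : DirichletCharacter ℂ q) (χ' : DirichletCharacter ℂ q') (n : ℕ)
    (hn : n.Coprime (4 * (q * q'))) :
    XC χ χ' ((n : ℕ) : ZMod (4 * (q * q'))) = χ (n : ZMod q) * conj (χ' (n : ZMod q')) := by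
  have hu' : IsUnit ((n : ℕ) : ZMod q') := by
    rw [ZMod.isUnit_iff_coprime]
    exact Nat.Coprime.coprime_dvd_right (Dvd.dvd.mul_left (dvd_mul_left q' q) 4) hn
  unfold XC
  rw [MulChar.mul_apply, MulChar.inv_apply_eq_inv', level_val _ _ _ hn, level_val _ _ _ hn]
  congr 1
  have h1 : ‖χ' (n : ZMod q')‖ = 1 := χ'.unit_norm_eq_one hu'.unit
  have h2 : χ' (n : ZMod q') * conj (χ' (n : ZMod q')) = 1 := by
    rw [Complex.mul_conj, Complex.normSq_eq_norm_sq, h1]; simp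
  exact inv_eq_of_mul_eq_one_right h2

theorem X4_apply (m n : ℕ) (hn : n.Coprime (4 * m)) :
    X4 m ((n : ℕ) : ZMod (4 * m)) = if n % 4 = 1 then 1 else -1 := by
  unfold X4
  rw [level_val _ _ _ hn]
  have hodd : n % 2 = 1 := by
    have h1 : Nat.Coprime n 2 := Nat.Coprime.coprime_dvd_right ⟨2 * m, by ring⟩ hn
    rw [Nat.coprime_comm, Nat.coprime_two_left] at h1
    exact Nat.odd_iff.1 h1
  have e : chi4 ((n : ℕ) : ZMod 4) = ((ZMod.χ₄ ((n : ℕ) : ZMod 4) : ℤ) : ℂ) := rfl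
  rw [e, ZMod.χ₄_nat_eq_if_mod_four]
  have h2 : ¬ n % 2 = 0 := by omega
  rw [if_neg h2]
  split_ifs <;> simp

/-- **The same Hecke character.** -/
theorem gram_same (hk : 1 ≤ k) (ψ : HeckeChar k) {q q' : ℕ} (hq : q ≠ 0) (hq' : q' ≠ 0)
    (χ : DirichletCharacter ℂ q) (χ' : DirichletCharacter ℂ q') (τ τ' : ℝ) {x y : ℝ}
    (h1 : Lim0 (fun p => (XC χ χ' ((p : ℕ) : ZMod (4 * (q * q'))) *
      ((p : ℕ) : ℂ) ^ (-(((τ - τ' : ℝ) : ℂ) * I))).re) x)
    (h2 : Lim0 (fun p => ((XC χ χ' * X4 (q * q')) ((p : ℕ) : ZMod (4 * (q * q'))) *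
      ((p : ℕ) : ℂ) ^ (-(((τ - τ' : ℝ) : ℂ) * I))).re) y) :
    Lim0 (fun p => (A ψ χ τ p * conj (A ψ χ' τ' p)).re) (x + y) := by
  have hU1 : UH (psik (k - k) (g1 ψ ψ χ χ')) :=
    uh_of (g1_PN ψ ψ χ χ').le (g1_unit ψ ψ χ χ' le_rfl)
  have hU2 : UH (psik (k + k) (g2 ψ ψ χ χ')) := uh_of (g2_PN ψ ψ χ χ').le (g2_unit ψ ψ χ χ')
  have h3 := lim_hecke (by omega) (g2_PN ψ ψ χ χ') (mod_ne ψ ψ hq hq') (g2_unit ψ ψ χ χ') (τ - τ')
  have h4 := Lim_add le_rfl (dir_bd _ _) (dir_bd _ _) h1 h2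
  have hb4 : ∀ p : Nat.Primes, |(XC χ χ' ((p : ℕ) : ZMod (4 * (q * q'))) *
      ((p : ℕ) : ℂ) ^ (-(((τ - τ' : ℝ) : ℂ) * I))).re +
      ((XC χ χ' * X4 (q * q')) ((p : ℕ) : ZMod (4 * (q * q'))) *
      ((p : ℕ) : ℂ) ^ (-(((τ - τ' : ℝ) : ℂ) * I))).re| ≤ 2 := by
    intro p
    refine (abs_add_le _ _).trans ?_
    linarith [dir_bd (XC χ χ') (τ - τ') p, dir_bd (XC χ χ' * X4 (q * q')) (τ - τ') p]
  have h5 := Lim_add le_rfl hb4 (term_bd hU2 (τ - τ')) h4 h3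
  rw [add_zero] at h5
  refine Lim_congr le_rfl (B := 4) (B' := 4) (fun p => ?_) (AA_bd ψ ψ χ χ' τ τ') ?_ h5
  · refine (abs_add_le _ _).trans ?_
    linarith [hb4 p, term_bd hU2 (τ - τ') p]
  · have hN : 2 * (ψ.modulus.norm * ((q : ℤ) * q')) ≠ 0 :=
      mul_ne_zero two_ne_zero (mul_ne_zero ψ.norm_ne
        (mul_ne_zero (by exact_mod_cast hq) (by exact_mod_cast hq')))
    refine (fin_dvd' hN).subset fun p hp => ?_
    by_contra hdvd
    apply hp
    have hd2 : ¬ ((p : ℕ) : ℤ) ∣ 2 := fun h => hdvd (h.mul_right _)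
    have hp2 : (p : ℕ) ≠ 2 := by
      intro h
      apply hd2
      rw [h]
      norm_num
    have hdm : ¬ ((p : ℕ) : ℤ) ∣ ψ.modulus.norm := fun h => hdvd ((h.mul_right _).mul_left _)
    have hdq : ¬ ((p : ℕ) : ℤ) ∣ (q : ℤ) := fun h => hdvd (((h.mul_right _).mul_left _).mul_left _)
    have hdq' : ¬ ((p : ℕ) : ℤ) ∣ (q' : ℤ) := fun h => hdvd (((h.mul_left _).mul_left _).mul_left _)
    have hcop : (p : ℕ).Coprime (4 * (q * q')) := by
      rw [Nat.Prime.coprime_iff_not_dvd p.2]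
      intro h
      rcases (Nat.Prime.dvd_mul p.2).1 h with h | h
      · have h6 : (p : ℕ) ∣ 2 ^ 2 := by simpa using h
        have h7 := p.2.dvd_of_dvd_pow h6
        exact hp2 ((Nat.prime_dvd_prime_iff_eq p.2 Nat.prime_two).1 h7)
      · rcases (Nat.Prime.dvd_mul p.2).1 h with h | h
        · exact hdq (by exact_mod_cast h)
        · exact hdq' (by exact_mod_cast h)
    rw [prod_off ψ ψ χ χ' le_rfl τ τ' p hp2, Complex.add_re, ← Complex.add_re, ← add_mul]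
    congr 3
    rw [MulChar.mul_apply, XC_apply χ χ' p hcop, X4_apply _ _ hcop]
    rcases M3.p_cases p.2 with h2 | ⟨ho, h3⟩ | ⟨ho, h1⟩
    · exact absurd h2 hp2
    · rw [bb_inert' hU1 p.2 h3, if_neg (by omega)]
      ring
    · have hne := gp_ne p.2 h1
      have hne' := star_ne hne
      have hnorm : (gp p).norm = (p : ℕ) := (gp_spec p.2 h1).1
      have hnorm' : (star (gp p)).norm = (p : ℕ) := by
        rw [norm_def''] at hnorm ⊢
        rw [← hnorm]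
        simp
      -- both Gaussian primes are prime to the modulus
      have hone : ∀ a : GaussianInt, a.norm = (p : ℕ) → ψ.fin a * conj (ψ.fin a) = 1 := by
        intro a ha
        have hc : IsCoprime a ψ.modulus := by
          have h8 : IsCoprime ((p : ℕ) : ℤ) ψ.modulus.norm := by
            rw [Int.isCoprime_iff_gcd_eq_one, Int.gcd_eq_natAbs]
            simp only [Int.natAbs_natCast]
            exact (Nat.Prime.coprime_iff_not_dvd p.2).2 fun h => hdm (Int.natCast_dvd.2 h)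
          have h9 : IsCoprime (((p : ℕ) : ℤ) : GaussianInt) ((ψ.modulus.norm : ℤ) : GaussianInt) := by
            obtain ⟨r, s, hrs⟩ := h8
            exact ⟨r, s, by exact_mod_cast congrArg (Int.cast : ℤ → GaussianInt) hrs⟩
          rw [← ha] at h9
          exact (h9.of_isCoprime_of_dvd_left (norm_dvd a)).of_isCoprime_of_dvd_right
            (norm_dvd ψ.modulus)
        rw [Complex.mul_conj, Complex.normSq_eq_norm_sq, ψ.nrm a hc]
        simp
      rw [bb_gp hU1 p.2 h1, psik_uu hne, psik_uu hne', if_pos h1]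
      unfold g1
      simp only [MonoidHom.mul_apply, cj_apply, nm_apply, hnorm, hnorm', Int.cast_natCast,
        Nat.sub_self, pow_zero, mul_one]
      rw [hone _ hnorm, hone _ hnorm']
      ring

end Pool.Agent.T6.H4.GT
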