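import Pool.Agent.T6.H4.GT.Gen

/-! Products of Hecke characters at the primes. -/

set_option autoImplicit false

namespace Pool.Agent.T6.H4.GT

open Finset Filter Topology Complex ComplexConjugate
open Pool.Agent.H304R3.HK
open Pool.Agent.W354.PK (psik)
open Pool.Agent.W354.PK.TK (psik_apply)
open Pool.Agent.Y149.CM
open Pool.Agent.H304R2.EC (PS Sh Sh_inert PS_split)

theorem norm_def'' (z : GaussianInt) : z.norm = z.re ^ 2 + z.im ^ 2 := by
  rw [Zsqrtd.norm_def]; ring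

theorem gp_spec {p : ℕ} (hp : p.Prime) (h1 : p % 4 = 1) :
    (gp p).norm = p ∧ (gp p).im % 2 = 0 ∧ ((gp p).re + (gp p).im) % 4 = 1 := by
  have h : ∃ a : GaussianInt, a.norm = p ∧ a.im % 2 = 0 ∧ (a.re + a.im) % 4 = 1 := by
    obtain ⟨a, b, -, hb, hab, hn, -⟩ := PS_split p hp h1
    exact ⟨⟨a, b⟩, by rw [norm_def'']; exact hn, hb, hab⟩
  unfold gp
  rw [dif_pos h]
  exact h.choose_spec

theorem gp_ne {p : ℕ} (hp : p.Prime) (h1 : p % 4 = 1) : gp p ≠ 0 := by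
  intro h
  have := (gp_spec hp h1).1
  rw [h] at this
  simp at this
  exact hp.ne_zero (by exact_mod_cast this.symm)

theorem star_ne {a : GaussianInt} (h : a ≠ 0) : star a ≠ 0 := by
  intro h0
  exact h (star_eq_zero.1 h0)

theorem bb_gp {h : GaussianInt →* ℂ} (hh : UH h) {p : ℕ} (hp : p.Prime) (h1 : p % 4 = 1) :
    bb h p = h (gp p) + h (star (gp p)) := by
  have I : M3.In h := ⟨bb_zero h hh.h0, fun k m hm => bb_two_odd h hh.hi k m hm⟩
  obtain ⟨a, b, hb0, hb, hab, hn, hPS⟩ := PS_split p hp h1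
  rw [M3.b_odd I p (by omega)]
  unfold Sh
  rw [hPS]
  obtain ⟨g1, g2, g3⟩ := gp_spec hp h1
  rw [norm_def''] at g1
  have hmem : ((gp p).re, (gp p).im) ∈ PS p := by
    rw [Pool.Agent.H304R2.EC.A1.mem_PS]
    exact ⟨g2, g3, g1⟩
  rw [hPS] at hmem
  have hne : ((a, b) : ℤ × ℤ) ≠ (a, -b) := by
    intro heq
    rw [Prod.mk.injEq] at heq
    omega
  rw [Finset.sum_pair hne]
  have hst : star (gp p) = ⟨(gp p).re, -(gp p).im⟩ := rfl
  have hgp : gp p = ⟨(gp p).re, (gp p).im⟩ := rfl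
  simp only [Finset.mem_insert, Finset.mem_singleton, Prod.mk.injEq] at hmem
  rcases hmem with ⟨e1, e2⟩ | ⟨e1, e2⟩
  · rw [hst, e1, e2, hgp, e1, e2]
  · rw [hst, e1, e2, hgp, e1, e2, neg_neg, add_comm]

theorem bb_inert' {h : GaussianInt →* ℂ} (hh : UH h) {p : ℕ} (hp : p.Prime) (h3 : p % 4 = 3) :
    bb h p = 0 := by
  have I : M3.In h := ⟨bb_zero h hh.h0, fun k m hm => bb_two_odd h hh.hi k m hm⟩
  rw [M3.b_odd I p (by omega)]
  exact (Sh_inert h p hp h3 0).1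

/-- the unit complex number `a / |a|` -/
noncomputable def uu (a : GaussianInt) : ℂ := tc a / (‖tc a‖ : ℂ)

theorem tc_star (a : GaussianInt) : tc (star a) = conj (tc a) := by
  unfold tc
  simp

theorem uu_star (a : GaussianInt) : uu (star a) = conj (uu a) := by
  unfold uu
  rw [tc_star, Complex.norm_conj, map_div₀, Complex.conj_ofReal]

theorem uu_mul {a : GaussianInt} (ha : a ≠ 0) : uu a * conj (uu a) = 1 := by
  have h : ‖tc a‖ ≠ 0 := norm_ne_zero_iff.2 (Pool.Agent.H304R3.HK.G1a.tc_ne ha)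
  rw [Complex.mul_conj, Complex.normSq_eq_norm_sq]
  unfold uu
  rw [norm_div, Complex.norm_real, norm_norm, div_self h]
  simp

theorem psik_uu {k : ℕ} {g : GaussianInt →* ℂ} {a : GaussianInt} (ha : a ≠ 0) :
    psik k g a = g a * uu a ^ k := by
  rw [psik_apply, if_neg ha]
  rfl

/-! ### operations on functions on the Gaussian integers -/

/-- complex conjugate -/
noncomputable def cj (f : GaussianInt →* ℂ) : GaussianInt →* ℂ :=
  ((starRingEnd ℂ : ℂ →+* ℂ) : ℂ →* ℂ).comp f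

theorem cj_apply (f : GaussianInt →* ℂ) (a : GaussianInt) : cj f a = conj (f a) := rfl

/-- composition with the conjugation of `ℤ[i]` -/
noncomputable def st (f : GaussianInt →* ℂ) : GaussianInt →* ℂ where
  toFun a := f (star a)
  map_one' := by simp
  map_mul' a b := by
    rw [star_mul, mul_comm, map_mul]

theorem st_apply (f : GaussianInt →* ℂ) (a : GaussianInt) : st f a = f (star a) := rfl

/-- composition with the norm -/
noncomputable def nm {q : ℕ} (χ : DirichletCharacter ℂ q) : GaussianInt →* ℂ where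
  toFun a := χ ((a.norm : ℤ) : ZMod q)
  map_one' := by simp
  map_mul' a b := by
    rw [Zsqrtd.norm_mul, Int.cast_mul, map_mul]

theorem nm_apply {q : ℕ} (χ : DirichletCharacter ℂ q) (a : GaussianInt) :
    nm χ a = χ ((a.norm : ℤ) : ZMod q) := rfl

/-- periodic modulo the integer `n` and bounded by one -/
structure PN (n : ℤ) (f : GaussianInt →* ℂ) : Prop where
  per : ∀ a b : GaussianInt, ((n : ℤ) : GaussianInt) ∣ a - b → f a = f b
  le : ∀ a, ‖f a‖ ≤ 1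

theorem PN.toPF {n : ℤ} {f : GaussianInt →* ℂ} (h : PN n f) (hn : n ≠ 0) :
    PF ((n : ℤ) : GaussianInt) f where
  q0 := by
    intro h
    have := congrArg Zsqrtd.re h
    simp at this
    exact hn this
  per := h.per
  le := h.le

theorem cast_dvd {m n : ℤ} (h : m ∣ n) : ((m : ℤ) : GaussianInt) ∣ ((n : ℤ) : GaussianInt) := by
  obtain ⟨c, rfl⟩ := h
  exact ⟨((c : ℤ) : GaussianInt), by push_cast; ring⟩

theorem PN.mul {m n : ℤ} {f g : GaussianInt →* ℂ} (h : PN m f) (h' : PN n g) :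
    PN (m * n) (f * g) where
  per a b hab := by
    rw [MonoidHom.mul_apply, MonoidHom.mul_apply,
      h.per a b ((cast_dvd (dvd_mul_right m n)).trans hab),
      h'.per a b ((cast_dvd (dvd_mul_left n m)).trans hab)]
  le a := by
    rw [MonoidHom.mul_apply, norm_mul]
    exact mul_le_one₀ (h.le a) (norm_nonneg _) (h'.le a)

theorem PN.cj {m : ℤ} {f : GaussianInt →* ℂ} (h : PN m f) : PN m (cj f) where
  per a b hab := by rw [cj_apply, cj_apply, h.per a b hab]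
  le a := by rw [cj_apply, Complex.norm_conj]; exact h.le a

theorem star_dvd {m : ℤ} {a b : GaussianInt} (h : ((m : ℤ) : GaussianInt) ∣ a - b) :
    ((m : ℤ) : GaussianInt) ∣ star a - star b := by
  obtain ⟨c, hc⟩ := h
  refine ⟨star c, ?_⟩
  rw [← star_sub, hc, star_mul, mul_comm]
  congr 1

theorem PN.st {m : ℤ} {f : GaussianInt →* ℂ} (h : PN m f) : PN m (st f) where
  per a b hab := by rw [st_apply, st_apply, h.per _ _ (star_dvd hab)]
  le a := h.le _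

theorem nm_PN {q : ℕ} (χ : DirichletCharacter ℂ q) : PN (q : ℤ) (nm χ) where
  per a b hab := by
    rw [nm_apply, nm_apply]
    congr 1
    rw [ZMod.intCast_eq_intCast_iff_dvd_sub]
    obtain ⟨w, hw⟩ := hab
    have hre : a.re = b.re + q * w.re := by
      have := congrArg Zsqrtd.re hw
      simp [Zsqrtd.re_mul] at this
      linarith
    have him : a.im = b.im + q * w.im := by
      have := congrArg Zsqrtd.im hw
      simp [Zsqrtd.im_mul] at this
      linarith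
    rw [norm_def'', norm_def'', hre, him]
    exact ⟨-(2 * b.re * w.re + 2 * b.im * w.im + q * w.re ^ 2 + q * w.im ^ 2), by ring⟩
  le a := by rw [nm_apply]; exact χ.norm_le_one _

theorem norm_dvd (z : GaussianInt) : z ∣ ((z.norm : ℤ) : GaussianInt) :=
  ⟨star z, Zsqrtd.norm_eq_mul_conj z⟩

variable {k l : ℕ}

theorem HeckeChar.PN (ψ : HeckeChar k) : PN ψ.modulus.norm ψ.fin where
  per a b hab := ψ.per a b ((norm_dvd _).trans hab)
  le a := by
    by_cases h : IsCoprime a ψ.modulus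
    · exact (ψ.nrm a h).le
    · rw [ψ.supp a h]; simp

theorem HeckeChar.norm_ne (ψ : HeckeChar k) : ψ.modulus.norm ≠ 0 := by
  intro h
  exact ψ.modulus_ne ((Zsqrtd.norm_eq_zero_iff (by norm_num) _).1 h)

theorem HeckeChar.uh (ψ : HeckeChar k) : UH (psik k ψ.fin) := uh_of ψ.PN.le ψ.unit

theorem fin_neg_i (ψ : HeckeChar k) : ψ.fin ⟨0, -1⟩ = I ^ k := by
  have e : (⟨0, -1⟩ : GaussianInt) = ⟨0, 1⟩ * (⟨0, 1⟩ * ⟨0, 1⟩) := by
    ext <;> simp
  rw [e, map_mul, map_mul, ψ.unit, ← mul_pow, ← mul_pow]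
  congr 1
  linear_combination (-I) * Complex.I_sq

/-- the finite part of `ψ ψ'⁻¹ ξ` -/
noncomputable def g1 (ψ : HeckeChar k) (ψ' : HeckeChar l) {q q' : ℕ} (χ : DirichletCharacter ℂ q)
    (χ' : DirichletCharacter ℂ q') : GaussianInt →* ℂ :=
  (ψ.fin * cj ψ'.fin) * (nm χ * cj (nm χ'))

/-- the finite part of `ψ (ψ'^c)⁻¹ ξ` -/
noncomputable def g2 (ψ : HeckeChar k) (ψ' : HeckeChar l) {q q' : ℕ} (χ : DirichletCharacter ℂ q)
    (χ' : DirichletCharacter ℂ q') : GaussianInt →* ℂ :=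
  (ψ.fin * cj (st ψ'.fin)) * (nm χ * cj (nm χ'))

section
variable (ψ : HeckeChar k) (ψ' : HeckeChar l) {q q' : ℕ} (χ : DirichletCharacter ℂ q)
    (χ' : DirichletCharacter ℂ q')

theorem g1_PN : PN ((ψ.modulus.norm * ψ'.modulus.norm) * ((q : ℤ) * q')) (g1 ψ ψ' χ χ') :=
  (ψ.PN.mul ψ'.PN.cj).mul ((nm_PN χ).mul (nm_PN χ').cj)

theorem g2_PN : PN ((ψ.modulus.norm * ψ'.modulus.norm) * ((q : ℤ) * q')) (g2 ψ ψ' χ χ') :=
  (ψ.PN.mul ψ'.PN.st.cj).mul ((nm_PN χ).mul (nm_PN χ').cj)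

theorem mod_ne (hq : q ≠ 0) (hq' : q' ≠ 0) :
    ((ψ.modulus.norm * ψ'.modulus.norm) * ((q : ℤ) * q')) ≠ 0 := by
  have h1 : (q : ℤ) ≠ 0 := by exact_mod_cast hq
  have h2 : (q' : ℤ) ≠ 0 := by exact_mod_cast hq'
  exact mul_ne_zero (mul_ne_zero ψ.norm_ne ψ'.norm_ne) (mul_ne_zero h1 h2)

theorem norm_i : (⟨0, 1⟩ : GaussianInt).norm = 1 := by decide

theorem g1_unit (h : l ≤ k) : g1 ψ ψ' χ χ' ⟨0, 1⟩ = (-I) ^ (k - l) := by
  unfold g1
  rw [MonoidHom.mul_apply, MonoidHom.mul_apply, MonoidHom.mul_apply, cj_apply, cj_apply, nm_apply,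
    nm_apply, norm_i, ψ.unit, ψ'.unit]
  simp only [Int.cast_one, map_one, mul_one, map_pow, map_neg, Complex.conj_I, neg_neg]
  obtain ⟨t, rfl⟩ := Nat.exists_eq_add_of_le h
  rw [Nat.add_sub_cancel_left, pow_add, mul_comm ((-I) ^ l), mul_assoc, ← mul_pow]
  simp

theorem g2_unit : g2 ψ ψ' χ χ' ⟨0, 1⟩ = (-I) ^ (k + l) := by
  unfold g2
  have e : star (⟨0, 1⟩ : GaussianInt) = ⟨0, -1⟩ := rfl
  rw [MonoidHom.mul_apply, MonoidHom.mul_apply, MonoidHom.mul_apply, cj_apply, cj_apply, st_apply,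
    nm_apply, nm_apply, norm_i, e, fin_neg_i, ψ.unit]
  simp only [Int.cast_one, map_one, mul_one, map_pow, Complex.conj_I]
  rw [pow_add]

/-- the normalised trace of Frobenius on `θ_ψ ⊗ χ` times `p^{-iτ}` -/
noncomputable def A {k : ℕ} (ψ : HeckeChar k) {q : ℕ} (χ : DirichletCharacter ℂ q) (τ : ℝ)
    (p : Nat.Primes) : ℂ :=
  bb (psik k ψ.fin) p * χ ((p : ℕ) : ZMod q) * ((p : ℕ) : ℂ) ^ (-(τ * I))

theorem norm_cpow_I (p : Nat.Primes) (τ : ℝ) : ‖((p : ℕ) : ℂ) ^ (-(τ * I))‖ = 1 := by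
  rw [Complex.norm_natCast_cpow_of_pos p.2.pos]
  simp

theorem norm_bb_le {h : GaussianInt →* ℂ} (hh : UH h) (p : Nat.Primes) : ‖bb h p‖ ≤ 2 := by
  have I : M3.In h := ⟨bb_zero h hh.h0, fun k m hm => bb_two_odd h hh.hi k m hm⟩
  obtain ⟨u, v, hu, hv, hs, -⟩ := M3.roots hh I p p.2
  rw [← hs]
  exact (norm_add_le _ _).trans (by linarith)

theorem norm_A_le (τ : ℝ) (p : Nat.Primes) : ‖A ψ χ τ p‖ ≤ 2 := by
  unfold A
  rw [norm_mul, norm_mul, norm_cpow_I, mul_one]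
  calc ‖bb (psik k ψ.fin) p‖ * ‖χ ((p : ℕ) : ZMod q)‖ ≤ 2 * 1 :=
        mul_le_mul (norm_bb_le ψ.uh p) (χ.norm_le_one _) (norm_nonneg _) (by norm_num)
    _ = 2 := by norm_num

theorem cpow_conj (p : Nat.Primes) (τ τ' : ℝ) : ((p : ℕ) : ℂ) ^ (-(τ * I)) *
    conj (((p : ℕ) : ℂ) ^ (-(τ' * I))) = ((p : ℕ) : ℂ) ^ (-(((τ - τ' : ℝ) : ℂ) * I)) := by
  have h0 : ((p : ℕ) : ℂ) ≠ 0 := by exact_mod_cast p.2.ne_zero
  have h1 : conj (((p : ℕ) : ℂ) ^ (-(τ' * I))) = ((p : ℕ) : ℂ) ^ (τ' * I) := by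
    have h2 := norm_cpow_I p τ'
    have h3 : ((p : ℕ) : ℂ) ^ (-(τ' * I)) * ((p : ℕ) : ℂ) ^ (τ' * I) = 1 := by
      rw [← Complex.cpow_add _ _ h0]
      simp
    have h4 : ((p : ℕ) : ℂ) ^ (-(τ' * I)) * conj (((p : ℕ) : ℂ) ^ (-(τ' * I))) = 1 := by
      rw [Complex.mul_conj, Complex.normSq_eq_norm_sq, h2]
      simp
    exact mul_left_cancel₀ (left_ne_zero_of_mul_eq_one h4) (h4.trans h3.symm)
  rw [h1, ← Complex.cpow_add _ _ h0]
  congr 1
  push_cast
  ring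

/-- **The product at an odd prime**, different infinity types. -/
theorem prod_off (h : l ≤ k) (τ τ' : ℝ) (p : Nat.Primes) (hp2 : (p : ℕ) ≠ 2) :
    A ψ χ τ p * conj (A ψ' χ' τ' p) =
      bb (psik (k - l) (g1 ψ ψ' χ χ')) p * ((p : ℕ) : ℂ) ^ (-(((τ - τ' : ℝ) : ℂ) * I)) +
      bb (psik (k + l) (g2 ψ ψ' χ χ')) p * ((p : ℕ) : ℂ) ^ (-(((τ - τ' : ℝ) : ℂ) * I)) := by
  have hU1 : UH (psik (k - l) (g1 ψ ψ' χ χ')) := uh_of (g1_PN ψ ψ' χ χ').le (g1_unit ψ ψ' χ χ' h)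
  have hU2 : UH (psik (k + l) (g2 ψ ψ' χ χ')) := uh_of (g2_PN ψ ψ' χ χ').le (g2_unit ψ ψ' χ χ')
  have hA : A ψ χ τ p * conj (A ψ' χ' τ' p) =
      (bb (psik k ψ.fin) p * conj (bb (psik l ψ'.fin) p) *
        (χ ((p : ℕ) : ZMod q) * conj (χ' ((p : ℕ) : ZMod q')))) *
        ((p : ℕ) : ℂ) ^ (-(((τ - τ' : ℝ) : ℂ) * I)) := by
    rw [← cpow_conj]
    unfold A
    rw [map_mul, map_mul]
    ring
  rw [hA, ← add_mul]
  congr 1
  rcases M3.p_cases p.2 with h2 | ⟨ho, h3⟩ | ⟨ho, h1⟩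
  · exact absurd h2 hp2
  · rw [bb_inert' hU1 p.2 h3, bb_inert' hU2 p.2 h3, bb_inert' ψ.uh p.2 h3]
    ring
  · have hne := gp_ne p.2 h1
    have hne' := star_ne hne
    have hnorm : (gp p).norm = (p : ℕ) := (gp_spec p.2 h1).1
    have hnorm' : (star (gp p)).norm = (p : ℕ) := by
      rw [norm_def''] at hnorm ⊢
      rw [← hnorm]
      simp
    rw [bb_gp hU1 p.2 h1, bb_gp hU2 p.2 h1, bb_gp ψ.uh p.2 h1, bb_gp ψ'.uh p.2 h1, psik_uu hne,
      psik_uu hne, psik_uu hne, psik_uu hne, psik_uu hne', psik_uu hne', psik_uu hne',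
      psik_uu hne', uu_star]
    unfold g1 g2
    simp only [MonoidHom.mul_apply, cj_apply, st_apply, nm_apply, hnorm, hnorm', star_star,
      Int.cast_natCast, map_add, map_mul, map_pow, Complex.conj_conj]
    obtain ⟨t, rfl⟩ := Nat.exists_eq_add_of_le h
    rw [Nat.add_sub_cancel_left]
    have hu := uu_mul hne
    have hu' : uu (gp p) ^ l * conj (uu (gp p)) ^ l = 1 := by rw [← mul_pow, hu, one_pow]
    set u := uu (gp p)
    set v := conj u
    set X := χ ((p : ℕ) : ZMod q) * conj (χ' ((p : ℕ) : ZMod q'))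
    set a := ψ.fin (gp p)
    set b := ψ.fin (star (gp p))
    set c := conj (ψ'.fin (gp p))
    set d := conj (ψ'.fin (star (gp p)))
    linear_combination (a * c * u ^ t + b * d * v ^ t) * X * hu'

end

end Pool.Agent.T6.H4.GT
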