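import Pool.Agent.T6.H4.GT.Gram

/-! The limits of the Gram matrix. -/

set_option autoImplicit false

namespace Pool.Agent.T6.H4.GT

open Finset Filter Topology Complex ComplexConjugate
open Pool.Agent.H304R3.HK
open Pool.Agent.W354.PK (psik)
open Pool.Agent.Helper919 (XX XX_apply XX_abs_le)
open Pool.Agent.Y149.CM
open Pool.Agent.H341R2 (E lam summable_E E_add E_const_mul E_sum E_le E_nonneg lam_tendsto)

theorem sp_le' (p : ℕ) : |sp p| ≤ 1 := by
  unfold sp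
  split_ifs <;> simp

theorem sp_nonneg' (p : ℕ) : 0 ≤ sp p := by
  unfold sp
  split_ifs <;> simp

theorem sp_mul_self (p : ℕ) : sp p * sp p = sp p := by
  unfold sp
  split_ifs <;> simp

/-- half of the primes are congruent to one modulo four -/
theorem lim_sp : Lim0 (fun p => sp p) (1 / 2) := by
  have h := Lim_XX_sp (F := 𝓝[>] (0 : ℝ)) le_rfl (c := 1) one_pos
  rw [if_pos ⟨1, by norm_num⟩] at h
  refine Lim_congr le_rfl (B := 1) (B' := 1) (fun p => ?_) (fun p => sp_le' p) ?_ h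
  · rw [abs_mul]
    exact mul_le_one₀ (XX_abs_le _ _) (abs_nonneg _) (sp_le' p)
  · refine (fin_dvd (N := 2) (by norm_num)).subset ?_
    intro p hp
    by_contra h2
    apply hp
    have h3 := XX_sq_one (e := 1) (p := p) (by simpa using h2)
    rw [one_mul] at h3
    rw [h3, one_mul]

theorem cop4 {n q q' : ℕ} (h4 : n % 4 = 1) (hq : n.Coprime q) (hq' : n.Coprime q') :
    n.Coprime (4 * (q * q')) := by
  have h2 : n.Coprime 2 := by
    rw [Nat.coprime_comm, Nat.coprime_two_left, Nat.odd_iff]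
    omega
  have h5 : n.Coprime 4 := by
    have := h2.pow_right 2
    simpa using this
  exact h5.mul_right (hq.mul_right hq')

section
variable {q q' : ℕ} (χ : DirichletCharacter ℂ q) (χ' : DirichletCharacter ℂ q')

theorem XC_val_ne {n : ℕ} (h : n.Coprime (4 * (q * q'))) (hne : χ n ≠ χ' n) :
    XC χ χ' ((n : ℕ) : ZMod (4 * (q * q'))) ≠ 1 := by
  rw [XC_apply χ χ' n h]
  intro h1
  apply hne
  have hu' : IsUnit ((n : ℕ) : ZMod q') := by
    rw [ZMod.isUnit_iff_coprime]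
    exact Nat.Coprime.coprime_dvd_right (Dvd.dvd.mul_left (dvd_mul_left q' q) 4) h
  have h2 : ‖χ' (n : ZMod q')‖ = 1 := χ'.unit_norm_eq_one hu'.unit
  have h3 : conj (χ' (n : ZMod q')) * χ' (n : ZMod q') = 1 := by
    rw [mul_comm, Complex.mul_conj, Complex.normSq_eq_norm_sq, h2]; simp
  calc χ (n : ZMod q) = χ (n : ZMod q) * (conj (χ' (n : ZMod q')) * χ' (n : ZMod q')) := by
        rw [h3, mul_one]
    _ = (χ (n : ZMod q) * conj (χ' (n : ZMod q'))) * χ' (n : ZMod q') := by ring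
    _ = χ' (n : ZMod q') := by rw [h1, one_mul]

theorem one_val {N : ℕ} {n : ℕ} (h : n.Coprime N) :
    (1 : DirichletCharacter ℂ N) ((n : ℕ) : ZMod N) = 1 :=
  MulChar.one_apply ((ZMod.isUnit_iff_coprime _ _).2 h)

theorem XC_ne_one {n : ℕ} (h4 : n % 4 = 1) (hq : n.Coprime q) (hq' : n.Coprime q')
    (hne : χ n ≠ χ' n) : XC χ χ' ≠ 1 ∧ XC χ χ' * X4 (q * q') ≠ 1 := by
  have hc := cop4 h4 hq hq'
  have h1 := XC_val_ne χ χ' hc hne
  refine ⟨fun h => h1 ?_, fun h => h1 ?_⟩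
  · rw [h, one_val hc]
  · have h2 : (XC χ χ' * X4 (q * q')) ((n : ℕ) : ZMod (4 * (q * q'))) = 1 := by
      rw [h, one_val hc]
    rw [MulChar.mul_apply, X4_apply _ _ hc, if_pos h4, mul_one] at h2
    exact h2

end

/-- different functions are orthogonal -/
theorem gram_pair (ψ : ∀ k : ℕ, HeckeChar k) {k l : ℕ} (hk : 1 ≤ k) {q q' : ℕ} (hq : q ≠ 0)
    (hq' : q' ≠ 0) (χ : DirichletCharacter ℂ q) (χ' : DirichletCharacter ℂ q') (τ τ' : ℝ)
    (hsep : k = l → τ = τ' → ∃ n : ℕ, n % 4 = 1 ∧ n.Coprime q ∧ n.Coprime q' ∧ χ n ≠ χ' n) :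
    Lim0 (fun p => (A (ψ k) χ τ p * conj (A (ψ l) χ' τ' p)).re) 0 := by
  rcases eq_or_ne k l with rfl | h
  · haveI : NeZero (4 * (q * q')) := ⟨mul_ne_zero (by norm_num) (mul_ne_zero hq hq')⟩
    have h1 : (XC χ χ' ≠ 1 ∨ τ - τ' ≠ 0) ∧ (XC χ χ' * X4 (q * q') ≠ 1 ∨ τ - τ' ≠ 0) := by
      rcases eq_or_ne τ τ' with h | h
      · obtain ⟨n, h2, h3, h4, h5⟩ := hsep rfl h
        have h6 := XC_ne_one χ χ' h2 h3 h4 h5
        exact ⟨Or.inl h6.1, Or.inl h6.2⟩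
      · exact ⟨Or.inr (sub_ne_zero.2 h), Or.inr (sub_ne_zero.2 h)⟩
    have h2 := gram_same hk (ψ k) hq hq' χ χ' τ τ' (lim_dir _ _ h1.1) (lim_dir _ _ h1.2)
    rwa [add_zero] at h2
  · exact gram_off (ψ k) (ψ l) hq hq' χ χ' τ τ' h

theorem X4_ne {m : ℕ} (hm : m ≠ 0) : X4 m ≠ 1 := by
  intro h
  have h0 : 0 < m := Nat.pos_of_ne_zero hm
  obtain ⟨n, hn⟩ : ∃ n, 4 * m = n + 1 := ⟨4 * m - 1, by omega⟩
  have hc : n.Coprime (4 * m) := by
    rw [hn]
    simp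
  have h1 := X4_apply m n hc
  rw [h, one_val hc, if_neg (by omega)] at h1
  norm_num at h1

/-- the functions have mean square one -/
theorem gram_diag {k : ℕ} (hk : 1 ≤ k) (ψ : HeckeChar k) {q : ℕ} (hq : q ≠ 0)
    (χ : DirichletCharacter ℂ q) (τ : ℝ) :
    Lim0 (fun p => (A ψ χ τ p * conj (A ψ χ τ p)).re) 1 := by
  have hN : 4 * (q * q) ≠ 0 := mul_ne_zero (by norm_num) (mul_ne_zero hq hq)
  haveI : NeZero (4 * (q * q)) := ⟨hN⟩
  have h1 : Lim0 (fun p => (XC χ χ ((p : ℕ) : ZMod (4 * (q * q))) *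
      ((p : ℕ) : ℂ) ^ (-(((τ - τ : ℝ) : ℂ) * I))).re) 1 := by
    refine Lim_congr le_rfl (B := 1) (B' := 1) (by simp) (dir_bd _ _) ?_ (Lim_one le_rfl)
    refine (fin_dvd hN).subset fun p hp => ?_
    by_contra hd
    apply hp
    have hcop : (p : ℕ).Coprime (4 * (q * q)) := (Nat.Prime.coprime_iff_not_dvd p.2).2 hd
    rw [XC_apply χ χ p hcop]
    have hu' : IsUnit ((p : ℕ) : ZMod q) := by
      rw [ZMod.isUnit_iff_coprime]
      exact Nat.Coprime.coprime_dvd_right (Dvd.dvd.mul_left (dvd_mul_left q q) 4) hcop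
    have h2 : ‖χ ((p : ℕ) : ZMod q)‖ = 1 := χ.unit_norm_eq_one hu'.unit
    rw [Complex.mul_conj, Complex.normSq_eq_norm_sq, h2]
    simp
  have h2 : XC χ χ * X4 (q * q) ≠ 1 := by
    unfold XC
    rw [mul_inv_cancel, one_mul]
    exact X4_ne (mul_ne_zero hq hq)
  have h3 := gram_same hk ψ hq hq χ χ τ τ h1 (lim_dir _ _ (Or.inl h2))
  rwa [add_zero] at h3

end Pool.Agent.T6.H4.GT
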